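import Pool.Agent.H942R3.AXMain

/-!
# MP_456481_pr : the mixing time of the `ax+b` walk modulo almost all `q`

For every integer `a ≥ 5` the mixing time `t_q` of the walk `X_{n+1} = a X_n + b_n` modulo `q`, with
independent uniform digits `b_n` in `{0,1}`, is `(1+o(1)) log_2 q` for almost all `q` coprime to `a`.

Method: (1) on average over `q` the collision probability of a partial sum of the digits is
controlled by the divisor bound, up to a factor `q^{o(1)}`; (2) a window of digits in which many
of the numbers `k a^j / q` are not close to an integer gives a power saving; (3) frequencies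
`k / q` without such a window have a reduced denominator in a very sparse set, because two
different fractions with denominators below `2^w` are at distance more than `4^{-w} ≥ a^{-w}`.
-/

set_option autoImplicit false

open Finset Filter Topology

namespace Pool.Agent.Results.MP_456481_pr.AlmostAllModuli

/-- `X_n = ∑_{i < n} b_i a^(n-1-i)`, the position at time `n` of the walk `X_0 = 0`,
`X_{i+1} = a X_i + b_i` with digits `b_0, …, b_{n-1}`. -/
def walk (a n : ℕ) (b : Fin n → Fin 2) : ℕ := ∑ i : Fin n, (b i : ℕ) * a ^ (n - 1 - (i : ℕ))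

/-- `P_{n,q}(r)`: the probability that `X_n mod q = r` when the digits `b_0, …, b_{n-1}` are
independent and uniform on `{0,1}` (the proportion of digit strings with this property). -/
noncomputable def law (a q n r : ℕ) : ℝ :=
  ((univ.filter (fun b : Fin n → Fin 2 => walk a n b % q = r)).card : ℝ) / 2 ^ n

/-- `d_q(n)`: the total variation distance between `P_{n,q}` and the uniform distribution on the
residues modulo `q`. -/
noncomputable def dist (a q n : ℕ) : ℝ := 1 / 2 * ∑ r ∈ range q, |law a q n r - 1 / q|

/-- `t` is the mixing time `t_q = min {n ≥ 0 : d_q(n) ≤ 1/4}`. -/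
def IsMixingTime (a q t : ℕ) : Prop := IsLeast {n : ℕ | dist a q n ≤ 1 / 4} t

/-- the recursion `X_{n+1} = a X_n + b_n` (a check of the definition) -/
theorem walk_succ (a n : ℕ) (b : Fin (n + 1) → Fin 2) :
    walk a (n + 1) b = a * walk a n (fun i => b i.castSucc) + b (Fin.last n) := by
  rw [walk, walk, Fin.sum_univ_castSucc, Finset.mul_sum]
  congr 1
  · refine Finset.sum_congr rfl fun i _ => ?_
    have h : n + 1 - 1 - ((i.castSucc : Fin (n + 1)) : ℕ) = (n - 1 - (i : ℕ)) + 1 := by
      have := i.2
      simp only [Fin.val_castSucc]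
      omega
    rw [h, pow_succ]
    ring
  · simp

theorem dist_eq (a q n : ℕ) : dist a q n = H942R3.AX.tv a q n := rfl

open Classical in
/-- **Theorem.** For every `a ≥ 5` and every `δ > 0` the set of `q ≥ 2` coprime to `a` for which
it is not the case that the mixing time `t_q` exists and satisfies `|t_q / log_2 q - 1| ≤ δ` has
density `0` relative to the integers coprime to `a`. -/
theorem result (a : ℕ) (ha : 5 ≤ a) (δ : ℝ) (hδ : 0 < δ) :
    Tendsto (fun x : ℕ =>
      (((Icc 2 x).filter (fun q : ℕ => q.Coprime a ∧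
        ¬ ∃ t : ℕ, IsMixingTime a q t ∧ |(t : ℝ) / Real.logb 2 q - 1| ≤ δ)).card : ℝ) /
      (((Icc 1 x).filter (fun q : ℕ => q.Coprime a)).card : ℝ)) atTop (𝓝 0) := by
  have ha0 : (0:ℝ) < a := by
    have : 0 < a := by omega
    exact_mod_cast this
  rw [Metric.tendsto_atTop]
  intro ε hε
  obtain ⟨X0, hX0⟩ := H942R3.AX.exc_small a (by omega) δ hδ (ε / (4 * a)) (by positivity)
  refine ⟨max X0 a, fun X hX => ?_⟩
  have h1 := hX0 X (le_trans (le_max_left _ _) hX)
  have h2 := H942R3.AX.coprime_card a (by omega) X (le_trans (le_max_right _ _) hX)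
  have haX : a ≤ X := le_trans (le_max_right _ _) hX
  have hXpos : (0:ℝ) < X := by
    have : 0 < X := by omega
    exact_mod_cast this
  have h3 : (H942R3.AX.exc a δ X) = (Icc 2 X).filter (fun q : ℕ => q.Coprime a ∧
        ¬ ∃ t : ℕ, IsMixingTime a q t ∧ |(t : ℝ) / Real.logb 2 q - 1| ≤ δ) := by
    ext q
    rw [H942R3.AX.exc, Finset.mem_filter, Finset.mem_filter]
    exact Iff.rfl
  rw [h3] at h1
  have hden : 0 < (((Icc 1 X).filter (fun q : ℕ => q.Coprime a)).card : ℝ) :=
    lt_of_lt_of_le (by positivity) h2
  rw [Real.dist_eq, sub_zero, abs_of_nonneg (by positivity), div_lt_iff₀ hden]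
  calc (((Icc 2 X).filter (fun q : ℕ => q.Coprime a ∧
        ¬ ∃ t : ℕ, IsMixingTime a q t ∧ |(t : ℝ) / Real.logb 2 q - 1| ≤ δ)).card : ℝ)
      ≤ ε / (4 * a) * X := h1
    _ = ε / 2 * (X / (2 * a)) := by field_simp; ring
    _ < ε * (X / (2 * a)) := by
        apply mul_lt_mul_of_pos_right (by linarith) (by positivity)
    _ ≤ ε * (((Icc 1 X).filter (fun q : ℕ => q.Coprime a)).card : ℝ) :=
        mul_le_mul_of_nonneg_left h2 hε.le

end Pool.Agent.Results.MP_456481_pr.AlmostAllModuli
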